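import Pool.Agent.Helper34.Dg.Final2
import Pool.Agent.Helper34.Dg.Final3

/-!
# Douglas algebras whose invertible inner functions are Blaschke products

Characterisations by the level sets of the invertible (or generating) inner functions, and by the
zeros of the invertible (or generating) Blaschke products.
-/

set_option autoImplicit false

namespace Pool.Agent.Results.MP_9a5413_an.BothCriteria

open MeasureTheory
open Pool.Agent.Helper34.Dg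

/-- The characterisations in terms of the level sets of inner functions. -/
def LevelForm (D : Submodule ℂ (T →ₘ[mu] ℂ)) : Prop :=
    (List.TFAE [
      ∀ u, IsInner u → InvIn D u → IsBlaschke u,
      ∀ b, IsInner b → InvIn D b → ∀ δ : ℝ, 0 < δ → NoSingular (lev b δ),
      ∀ b, IsInner b → InvIn D b → ∀ δ : ℝ, 0 < δ → BddDominates (lev b δ),
      ∀ b, IsInner b → InvIn D b → ∀ δ : ℝ, 0 < δ → Dominates (lev b δ),
      ∀ b, IsInner b → InvIn D b → ∀ δ η : ℝ, 0 < δ → 0 < η → Covers (lev b δ) (1 + η),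
      ∃ M : ℝ, ∀ b, IsInner b → InvIn D b → ∀ δ : ℝ, 0 < δ → Covers (lev b δ) M]) ∧
    (∀ B : Set (ℂ → ℂ), (∀ b ∈ B, IsInner b) → GeneratedBy D B → List.TFAE [
      ∀ u, IsInner u → InvIn D u → IsBlaschke u,
      ∀ F : Finset (ℂ → ℂ), (F : Set (ℂ → ℂ)) ⊆ B → ∀ δ : ℝ, 0 < δ → NoSingular (levs F δ),
      ∀ F : Finset (ℂ → ℂ), (F : Set (ℂ → ℂ)) ⊆ B → ∀ δ : ℝ, 0 < δ → BddDominates (levs F δ),
      ∀ F : Finset (ℂ → ℂ), (F : Set (ℂ → ℂ)) ⊆ B → ∀ δ : ℝ, 0 < δ → Dominates (levs F δ),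
      ∀ F : Finset (ℂ → ℂ), (F : Set (ℂ → ℂ)) ⊆ B → ∀ δ η : ℝ, 0 < δ → 0 < η →
        Covers (levs F δ) (1 + η),
      ∃ M : ℝ, ∀ F : Finset (ℂ → ℂ), (F : Set (ℂ → ℂ)) ⊆ B → ∀ δ : ℝ, 0 < δ →
        Covers (levs F δ) M]) ∧
    (∀ b : ℂ → ℂ, IsInner b → GeneratedBy D {b} → List.TFAE [
      ∀ u, IsInner u → InvIn D u → IsBlaschke u,
      ∀ δ : ℝ, 0 < δ → NoSingular (lev b δ),
      ∀ δ : ℝ, 0 < δ → BddDominates (lev b δ),
      ∀ δ : ℝ, 0 < δ → Dominates (lev b δ),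
      ∀ δ η : ℝ, 0 < δ → 0 < η → Covers (lev b δ) (1 + η),
      ∃ M : ℝ, ∀ δ : ℝ, 0 < δ → Covers (lev b δ) M])

/-- The characterisations in terms of the zeros of Blaschke products. -/
def ZeroForm (D : Submodule ℂ (T →ₘ[mu] ℂ)) : Prop :=
    (List.TFAE [
      ∀ u, IsInner u → InvIn D u → IsBlaschke u,
      ∀ b, IsBlaschke b → InvIn D b → ∀ δ : ℝ, 0 < δ → NoSingular (zlev b δ),
      ∀ b, IsBlaschke b → InvIn D b → ∀ δ : ℝ, 0 < δ → BddDominates (zlev b δ),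
      ∀ b, IsBlaschke b → InvIn D b → ∀ δ : ℝ, 0 < δ → Dominates (zlev b δ),
      ∀ b, IsBlaschke b → InvIn D b → ∀ δ η : ℝ, 0 < δ → 0 < η → Covers (zlev b δ) (1 + η),
      ∃ M : ℝ, ∀ b, IsBlaschke b → InvIn D b → ∀ δ : ℝ, 0 < δ → Covers (zlev b δ) M]) ∧
    (∀ B : Set (ℂ → ℂ), (∀ b ∈ B, IsBlaschke b) → GeneratedBy D B → List.TFAE [
      ∀ u, IsInner u → InvIn D u → IsBlaschke u,
      ∀ F : Finset (ℂ → ℂ), (F : Set (ℂ → ℂ)) ⊆ B → ∀ δ : ℝ, 0 < δ → NoSingular (zset F δ),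
      ∀ F : Finset (ℂ → ℂ), (F : Set (ℂ → ℂ)) ⊆ B → ∀ δ : ℝ, 0 < δ → BddDominates (zset F δ),
      ∀ F : Finset (ℂ → ℂ), (F : Set (ℂ → ℂ)) ⊆ B → ∀ δ : ℝ, 0 < δ → Dominates (zset F δ),
      ∀ F : Finset (ℂ → ℂ), (F : Set (ℂ → ℂ)) ⊆ B → ∀ δ η : ℝ, 0 < δ → 0 < η →
        Covers (zset F δ) (1 + η),
      ∃ M : ℝ, ∀ F : Finset (ℂ → ℂ), (F : Set (ℂ → ℂ)) ⊆ B → ∀ δ : ℝ, 0 < δ →
        Covers (zset F δ) M])

theorem result (D : Submodule ℂ (T →ₘ[mu] ℂ)) (hD : IsDouglas D) : LevelForm D ∧ ZeroForm D :=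
  ⟨⟨char_all hD, fun _ hB hgen => char_gen hD hB hgen, fun _ hb hgen => char_one hD hb hgen⟩,
    ⟨zchar_all hD, fun _ hB hgen => zchar_gen hD hB hgen⟩⟩

end Pool.Agent.Results.MP_9a5413_an.BothCriteria
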