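import Pool.Agent.Helper34.Dg.Final2

/-!
# Douglas algebras whose invertible inner functions are Blaschke products

For a Douglas algebra `D` the following are equivalent:

1. every inner function invertible in `D` is a Blaschke product;
2. for every inner `b` invertible in `D` and every `δ > 0`, no nonconstant zero-free inner function
   is bounded away from zero on `{|b| > 1 - δ}`;
3. every positive harmonic function bounded on such a set is bounded on the disc;
4. every positive harmonic function that is at most `M` on such a set is at most `M` on the disc;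
5. for every such set `E` and every `η > 0` there are finitely many Poisson kernels with poles in `E`
   and nonnegative weights of total mass at most `1 + η` whose sum is at least `1` on the circle;
6. the same with one constant `M`, independent of the set `E`, in place of `1 + η`.

If `D` is generated by an arbitrary family `B` of inner functions, it is enough to test the sets on
which finitely many members of `B` all have modulus greater than `1 - δ`; for a single generator
`b` the sets are `{|b| > 1 - δ}`.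
-/

set_option autoImplicit false

namespace Pool.Agent.Results.MP_9a5413_an.Characterization

open MeasureTheory
open Pool.Agent.Helper34.Dg

theorem result (D : Submodule ℂ (T →ₘ[mu] ℂ)) (hD : IsDouglas D) :
    (List.TFAE [
      ∀ u, IsInner u → InvIn D u → IsBlaschke u,
      ∀ b, IsInner b → InvIn D b → ∀ δ : ℝ, 0 < δ → NoSingular (lev b δ),
      ∀ b, IsInner b → InvIn D b → ∀ δ : ℝ, 0 < δ → BddDominates (lev b δ),
      ∀ b, IsInner b → InvIn D b → ∀ δ : ℝ, 0 < δ → Dominates (lev b δ),
      ∀ b, IsInner b → InvIn D b → ∀ δ η : ℝ, 0 < δ → 0 < η → Covers (lev b δ) (1 + η),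
      ∃ M : ℝ, ∀ b, IsInner b → InvIn D b → ∀ δ : ℝ, 0 < δ → Covers (lev b δ) M]) ∧
    (∀ B : Set (ℂ → ℂ), (∀ b ∈ B, IsInner b) → GeneratedBy D B → List.TFAE [
      ∀ u, IsInner u → InvIn D u → IsBlaschke u,
      ∀ F : Finset (ℂ → ℂ), (F : Set (ℂ → ℂ)) ⊆ B → ∀ δ : ℝ, 0 < δ → NoSingular (levs F δ),
      ∀ F : Finset (ℂ → ℂ), (F : Set (ℂ → ℂ)) ⊆ B → ∀ δ : ℝ, 0 < δ → BddDominates (levs F δ),
      ∀ F : Finset (ℂ → ℂ), (F : Set (ℂ → ℂ)) ⊆ B → ∀ δ : ℝ, 0 < δ → Dominates (levs F δ),
      ∀ F : Finset (ℂ → ℂ), (F : Set (ℂ → ℂ)) ⊆ B → ∀ δ η : ℝ, 0 < δ → 0 < η →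
        Covers (levs F δ) (1 + η),
      ∃ M : ℝ, ∀ F : Finset (ℂ → ℂ), (F : Set (ℂ → ℂ)) ⊆ B → ∀ δ : ℝ, 0 < δ →
        Covers (levs F δ) M]) ∧
    (∀ b : ℂ → ℂ, IsInner b → GeneratedBy D {b} → List.TFAE [
      ∀ u, IsInner u → InvIn D u → IsBlaschke u,
      ∀ δ : ℝ, 0 < δ → NoSingular (lev b δ),
      ∀ δ : ℝ, 0 < δ → BddDominates (lev b δ),
      ∀ δ : ℝ, 0 < δ → Dominates (lev b δ),
      ∀ δ η : ℝ, 0 < δ → 0 < η → Covers (lev b δ) (1 + η),
      ∃ M : ℝ, ∀ δ : ℝ, 0 < δ → Covers (lev b δ) M]) :=
  ⟨char_all hD, fun _ hB hgen => char_gen hD hB hgen, fun _ hb hgen => char_one hD hb hgen⟩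

end Pool.Agent.Results.MP_9a5413_an.Characterization
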