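import Pool.Agent.Helper34.Dg.Final3

/-!
# Douglas algebras whose invertible inner functions are Blaschke products: a criterion on zeros

For a Blaschke product `b` put `zsum b z = ∑ (1 - |w|²) (1 - |z|²) / |1 - conj w z|²`, the sum over
the zeros `w` of `b` with multiplicity. For a Douglas algebra `D` the following are equivalent:

1. every inner function invertible in `D` is a Blaschke product;
2. for every Blaschke product `b` invertible in `D` and every `δ > 0`, no nonconstant zero-free
   inner function is bounded away from zero on `{zsum b < δ}`;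
3. every positive harmonic function bounded on such a set is bounded on the disc;
4. every positive harmonic function that is at most `M` on such a set is at most `M` on the disc;
5. for every such set `E` and every `η > 0` there are finitely many Poisson kernels with poles in `E`
   and nonnegative weights of total mass at most `1 + η` whose sum is at least `1` on the circle;
6. the same with one constant `M`, independent of the set `E`, in place of `1 + η`.

If `D` is generated by an arbitrary family `B` of Blaschke products, it is enough to test the sets on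
which the zero sums of finitely many members of `B` add up to less than `δ`.
-/

set_option autoImplicit false

namespace Pool.Agent.Results.MP_9a5413_an.ZeroCriterion

open MeasureTheory
open Pool.Agent.Helper34.Dg

theorem result (D : Submodule ℂ (T →ₘ[mu] ℂ)) (hD : IsDouglas D) :
    (List.TFAE [
      ∀ u, IsInner u → InvIn D u → IsBlaschke u,
      ∀ b, IsBlaschke b → InvIn D b → ∀ δ : ℝ, 0 < δ → NoSingular (zlev b δ),
      ∀ b, IsBlaschke b → InvIn D b → ∀ δ : ℝ, 0 < δ → BddDominates (zlev b δ),
      ∀ b, IsBlaschke b → InvIn D b → ∀ δ : ℝ, 0 < δ → Dominates (zlev b δ),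
      ∀ b, IsBlaschke b → InvIn D b → ∀ δ η : ℝ, 0 < δ → 0 < η → Covers (zlev b δ) (1 + η),
      ∃ M : ℝ, ∀ b, IsBlaschke b → InvIn D b → ∀ δ : ℝ, 0 < δ → Covers (zlev b δ) M]) ∧
    (∀ B : Set (ℂ → ℂ), (∀ b ∈ B, IsBlaschke b) → GeneratedBy D B → List.TFAE [
      ∀ u, IsInner u → InvIn D u → IsBlaschke u,
      ∀ F : Finset (ℂ → ℂ), (F : Set (ℂ → ℂ)) ⊆ B → ∀ δ : ℝ, 0 < δ → NoSingular (zset F δ),
      ∀ F : Finset (ℂ → ℂ), (F : Set (ℂ → ℂ)) ⊆ B → ∀ δ : ℝ, 0 < δ → BddDominates (zset F δ),
      ∀ F : Finset (ℂ → ℂ), (F : Set (ℂ → ℂ)) ⊆ B → ∀ δ : ℝ, 0 < δ → Dominates (zset F δ),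
      ∀ F : Finset (ℂ → ℂ), (F : Set (ℂ → ℂ)) ⊆ B → ∀ δ η : ℝ, 0 < δ → 0 < η →
        Covers (zset F δ) (1 + η),
      ∃ M : ℝ, ∀ F : Finset (ℂ → ℂ), (F : Set (ℂ → ℂ)) ⊆ B → ∀ δ : ℝ, 0 < δ →
        Covers (zset F δ) M]) :=
  ⟨zchar_all hD, fun _ hB hgen => zchar_gen hD hB hgen⟩

end Pool.Agent.Results.MP_9a5413_an.ZeroCriterion
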